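import Pool.Agent.Work.MP_5391ad_co.StageA

namespace Pool.Agent.Work.MP_5391ad_co.Old.LogAsymptotics

open Pool.Agent.Work.MP_5391ad_co

/-- The number `N_n` of nearly decomposable `n × n` Boolean matrices satisfies
`log N_n = 2 log n! + (n + 2 L) (log L - 1) - κ L ^ (1/3) + O(n ^ η)` for every `η > 0`. -/
theorem result : ∀ η : ℝ, 0 < η → ∀ᶠ n : ℕ in Filter.atTop,
    |Real.log (numND n) - (2 * Real.log n.factorial +
      (n + 2 * ell n) * (Real.log (ell n) - 1) - kappa * ell n ^ (1 / 3 : ℝ))| ≤ (n : ℝ) ^ η := by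
  intro η hη
  filter_upwards [stageA hη] with n hn
  have : (2 * Real.log n.factorial + (n + 2 * ell n) * (Real.log (ell n) - 1) -
      kappa * ell n ^ (1 / 3 : ℝ)) = 2 * Real.log n.factorial + FF n := by
    unfold FF; ring
  rw [this]; exact hn

end Pool.Agent.Work.MP_5391ad_co.Old.LogAsymptotics
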