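import Pool.Agent.Work.MP_5391ad_co.Asymp

namespace Pool.Agent.Results.MP_5391ad_co.RootAsymptotics

open Pool.Agent.Work.MP_5391ad_co

/-- The number `N_n` of nearly decomposable `n × n` Boolean matrices satisfies
`N_n ^ (1 / n) ∼ n ^ 3 / (e ^ 3 (log n) ^ 2)`. -/
theorem result : Filter.Tendsto (fun n : ℕ =>
    (numND n : ℝ) ^ (1 / (n : ℝ)) / ((n : ℝ) ^ 3 / (Real.exp 3 * Real.log n ^ 2)))
    Filter.atTop (nhds 1) :=
  main

end Pool.Agent.Results.MP_5391ad_co.RootAsymptotics
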